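import Pool.Agent.MP_4a02af_gt.All

namespace Pool.Agent.Results.MP_4a02af_gt.Local

open Pool.Agent.MP_4a02af_gt

/-- One explicit sum decides whether the bound `χ - 2 + 3 rk π₁` is attained. -/
theorem result (T : Dg) (g : ℕ) (k : Fin 3 → ℕ) (hT : T.Typ g k) : List.TFAE
    [(T.sumN (rk T.pi1 + 1)).genus = T.genus + 2 * (rk T.pi1 + 1),
     ∀ n, (T.sumN n).genus = T.genus + 2 * n,
     T.genus + (k 0 + k 1 + k 2) = g + 3 * rk T.pi1] :=
  local_All T g k hT

end Pool.Agent.Results.MP_4a02af_gt.Local
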