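import Pool.Agent.MP_4a02af_gt.All2

namespace Pool.Agent.Results.MP_4a02af_gt.Reduction

open Pool.Agent.MP_4a02af_gt

/-- Additivity is equivalent to its cases `S² × S²` and `ℂP²`, and to the formula
`χ - 2 + 3 rk π₁` for the genus. -/
theorem result : List.TFAE
    [∀ T U : Dg, T.Valid → U.Valid → (T.sum U).genus = T.genus + U.genus,
     ∀ T : Dg, T.Valid → (T.sum hyp).genus = T.genus + 2,
     ∀ T : Dg, T.Valid → (T.sum cp).genus = T.genus + 1,
     ∀ (T : Dg) (g : ℕ) (k : Fin 3 → ℕ), T.Typ g k →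
       T.genus + (k 0 + k 1 + k 2) = g + 3 * rk T.pi1] :=
  cThD

end Pool.Agent.Results.MP_4a02af_gt.Reduction
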