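import Pool.Agent.MP_4a02af_gt.All

namespace Pool.Agent.Results.MP_4a02af_gt.Stable

open Pool.Agent.MP_4a02af_gt

/-- After enough summands `S² × S²` the genus is `χ - 2 + 3 rk π₁`. -/
theorem result (T : Dg) (g : ℕ) (k : Fin 3 → ℕ) (n : ℕ) (hT : T.Typ g k)
    (hn : k 0 + k 1 + k 2 ≤ n) :
    (T.sumN n).genus + (k 0 + k 1 + k 2) = g + 2 * n + 3 * rk T.pi1 :=
  cThA T g k n hT hn

end Pool.Agent.Results.MP_4a02af_gt.Stable
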