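import Pool.Agent.MP_4a02af_gt.All

namespace Pool.Agent.Results.MP_4a02af_gt.StableAdd

open Pool.Agent.MP_4a02af_gt

/-- The genus is additive once both summands contain enough copies of `S² × S²`. -/
theorem result (T U : Dg) (g g' : ℕ) (k k' : Fin 3 → ℕ) (n m : ℕ) (hT : T.Typ g k)
    (hU : U.Typ g' k') (hn : k 0 + k 1 + k 2 ≤ n) (hm : k' 0 + k' 1 + k' 2 ≤ m) :
    ((T.sumN n).sum (U.sumN m)).genus = (T.sumN n).genus + (U.sumN m).genus :=
  cThC T U g g' k k' n m hT hU hn hm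

end Pool.Agent.Results.MP_4a02af_gt.StableAdd
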